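import Pool.Agent.H69.LR.Main
import Pool.Agent.H77.LT.FinC

/-!
# Latin triangles exist for all large orders
-/

set_option autoImplicit false

namespace Pool.Agent.Results.MP_0b346b_co.AllLargeOrders

/-- the cells of the triangle of order `n`: triples of positive integers with sum `n+2` -/
def IsCell (n : ℕ) (x : Fin 3 → ℕ) : Prop := (∀ d, 1 ≤ x d) ∧ x 0 + x 1 + x 2 = n + 2

/-- the number of symbols of a latin triangle of order `n` -/
def symbols (n : ℕ) : ℕ := if Odd n then n else n + 1

/-- `L` is a latin triangle of order `n`: in each direction `d` the lines are, for `1 ≤ i ≤ (n+1)/2`,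
the union of the rows `i` and `n+2-i` (`n` odd; no cell has a coordinate `n+1`) resp. `i` and `n+1-i`
(`n` even), and each symbol occurs in each line exactly once -/
def IsLatinTriangle (n : ℕ) (L : (Fin 3 → ℕ) → Fin (symbols n)) : Prop :=
  ∀ (d : Fin 3) (i : ℕ), 1 ≤ i → 2 * i ≤ n + 1 → ∀ s, ∃! x, IsCell n x ∧
    (x d = i ∨ x d + i = if Odd n then n + 2 else n + 1) ∧ L x = s

/-- There is `n0` such that a latin triangle of order `n` exists for every `n > n0`. -/
theorem result : ∃ n0 : ℕ, ∀ n : ℕ, n0 < n →
    ∃ L : (Fin 3 → ℕ) → Fin (symbols n), IsLatinTriangle n L := by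
  obtain ⟨m0, hm0⟩ := H77.LT.core
  exact H69LR.latin_of_core ⟨m0, fun m hm n F hF => hm0 m n F hm hF⟩

end Pool.Agent.Results.MP_0b346b_co.AllLargeOrders
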