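import Pool.Agent.H15.LT.Main

/-!
# Latin triangles of all orders `n` and `n-1`, `n` in a multiplicative semigroup
-/

set_option autoImplicit false

namespace Pool.Agent.Results.MP_0b346b_co.Semigroup

/-- the cells of the triangle of order `n`: triples of positive integers with sum `n+2` -/
def IsCell (n : ℕ) (x : Fin 3 → ℕ) : Prop := (∀ d, 1 ≤ x d) ∧ x 0 + x 1 + x 2 = n + 2

/-- the number of symbols of a latin triangle of order `n` -/
def symbols (n : ℕ) : ℕ := if Odd n then n else n + 1

/-- `L` is a latin triangle of order `n`: in each direction `d` the lines are, for `1 ≤ i ≤ (n+1)/2`,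
the union of the rows `i` and `n+2-i` (`n` odd; no cell has a coordinate `n+1`) resp. `i` and `n+1-i`
(`n` even), and each symbol occurs in each line exactly once -/
def IsLatinTriangle (n : ℕ) (L : (Fin 3 → ℕ) → Fin (symbols n)) : Prop :=
  ∀ (d : Fin 3) (i : ℕ), 1 ≤ i → 2 * i ≤ n + 1 → ∀ s, ∃! x, IsCell n x ∧
    (x d = i ∨ x d + i = if Odd n then n + 2 else n + 1) ∧ L x = s

open Pool.Agent.H15.LT

theorem of_good {n : ℕ} (h : Good n) :
    ∀ m, (m = n ∨ m + 1 = n) → ∃ L : (Fin 3 → ℕ) → Fin (symbols m), IsLatinTriangle m L := by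
  obtain ⟨ho, F, G, U, hP⟩ := h
  rintro m (rfl | rfl)
  · have hs : symbols m = m := by
      unfold symbols
      rw [if_pos ho]
    refine ⟨fun x => Fin.cast hs.symm (F x), ?_⟩
    intro d i h1 h2 s
    obtain ⟨x, ⟨x1, x2, x3⟩, hx⟩ := line_odd hP d i h1 h2 (Fin.cast hs s)
    refine ⟨x, ⟨x1, ?_, ?_⟩, ?_⟩
    · rw [if_pos ho]
      exact x2
    · show Fin.cast hs.symm (F x) = s
      rw [x3]
      rfl
    · rintro y ⟨y1, y2, y3⟩
      rw [if_pos ho] at y2
      apply hx y
      refine ⟨y1, y2, ?_⟩
      rw [← y3]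
      rfl
  · have hne : ¬ Odd m := by
      intro hm
      rw [Nat.odd_iff] at hm ho
      omega
    have hs : symbols m = m + 1 := by
      unfold symbols
      rw [if_neg hne]
    refine ⟨fun x => Fin.cast hs.symm (G x), ?_⟩
    intro d i h1 h2 s
    obtain ⟨x, ⟨x1, x2, x3⟩, hx⟩ := line_even hP d i h1 h2 (Fin.cast hs s)
    refine ⟨x, ⟨x1, ?_, ?_⟩, ?_⟩
    · rw [if_neg hne]
      exact x2
    · show Fin.cast hs.symm (G x) = s
      rw [x3]
      rfl
    · rintro y ⟨y1, y2, y3⟩
      rw [if_neg hne] at y2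
      apply hx y
      refine ⟨y1, y2, ?_⟩
      rw [← y3]
      rfl

theorem result : ∀ n ∈ Submonoid.closure ({3, 13, 15, 17, 19} : Set ℕ), ∀ m, (m = n ∨ m + 1 = n) →
    ∃ L : (Fin 3 → ℕ) → Fin (symbols m), IsLatinTriangle m L := by
  intro n hn
  apply of_good
  induction hn using Submonoid.closure_induction with
  | mem x hx =>
    simp only [Set.mem_insert_iff, Set.mem_singleton_iff] at hx
    rcases hx with rfl | rfl | rfl | rfl | rfl
    · exact good_of_check 3 (by decide) F3 G3 chk3
    · exact good_of_check 13 (by decide) F13 G13 chk13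
    · exact good_of_check 15 (by decide) F15 G15 chk15
    · exact good_of_check 17 (by decide) F17 G17 chk17
    · exact good_of_check 19 (by decide) F19 G19 chk19
  | one => exact good_one
  | mul x y _ _ hx hy => exact good_mul hy hx

end Pool.Agent.Results.MP_0b346b_co.Semigroup
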